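import Pool.Agent.Lib.MP_dee342_nt.Ar4.Defs
import Pool.Agent.Lib.MP_dee342_nt.Ar.Seq

/-! Cuttings of an orbit into blocks. -/

namespace Pool.Agent.Lib.MP_dee342_nt.Ar

open Finset

variable {a V K J : ℕ} {y : ℕ → ℤ} {e u : ℕ → ℕ}

theorem blk_lt {s t : ℕ} (h : Block a V K J y e s t) : s < t := by
  obtain ⟨-, -, w, h1, h2, -⟩ := h
  omega

theorem blk_two {s t : ℕ} (h : Block a V K J y e s t) : 1 ≤ J ∧ 2 ≤ |y s| := by
  have h1 : (2 : ℤ) ≤ |y s| ^ J :=
    (le_self_pow₀ one_le_two (by have := blk_lt h; omega)).trans h.1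
  refine ⟨Nat.pos_of_ne_zero fun c => ?_, not_lt.1 fun c => ?_⟩
  · rw [c, pow_zero] at h1
    omega
  · have := pow_le_one₀ (n := J) (abs_nonneg (y s)) (by omega)
    omega

/-- A block of shifted sequences. -/
theorem blk_shift {s t : ℕ} (c : ℕ) (h : Block a V K J y e (c + s) (c + t)) :
    Block a V K J (fun i => y (c + i)) (fun i => e (c + i)) s t := by
  obtain ⟨h1, h2, w, h3, h4, h5, h6⟩ := h
  obtain ⟨w, rfl⟩ : ∃ w', w = c + w' := ⟨w - c, by omega⟩
  rw [Nat.add_sub_add_left] at h1 h6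
  exact ⟨h1, fun i k1 k2 => h2 _ (by omega) (by omega), w, by omega, by omega,
    fun j k1 k2 => by simpa only [add_assoc] using h5 (c + j) (by omega) (by omega),
    fun i k1 k2 => h6 _ (by omega) (by omega)⟩

/-- Every piece is a block. -/
def BCut (a V K J : ℕ) (y : ℕ → ℤ) (e u : ℕ → ℕ) : Prop :=
  ∀ i, Block a V K J y e (u i) (u (i + 1))

theorem BCut.mono (hu : BCut a V K J y e u) : Monotone u :=
  monotone_nat_of_le_succ fun n => (blk_lt (hu n)).le

theorem BCut.pos (hu : BCut a V K J y e u) : 1 ≤ K := Nat.pos_of_ne_zero fun c => by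
  have h1 := (hu 0).2.1 _ le_rfl (blk_lt (hu 0)).le
  have h2 := (blk_two (hu (0 + 1))).2
  rw [c, pow_zero] at h1
  omega

/-- No point lies far below all cut points. -/
theorem BCut.low (hu : BCut a V K J y e u) (h0 : u 0 = 0) (n : ℕ) :
    ∀ i ≤ u n, ∃ j ≤ n, |y (u j)| ≤ |y i| ^ K := by
  induction n with
  | zero =>
    refine fun i hi => ⟨0, le_rfl, ?_⟩
    have h1 := hu.pos
    have h2 := (blk_two (hu 0)).2
    rw [show i = u 0 by omega]
    exact le_self_pow₀ (by omega) (by omega)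
  | succ n ih =>
    intro i hi
    by_cases h1 : i ≤ u n
    · obtain ⟨j, h2, h3⟩ := ih i h1
      exact ⟨j, by omega, h3⟩
    · exact ⟨n + 1, le_rfl, (hu n).2.1 i (by omega) hi⟩

theorem BCut.shift (hu : BCut a V K J y e u) (j : ℕ) :
    BCut a V K J (fun i => y (u j + i)) (fun i => e (u j + i)) fun i => u (j + i) - u j := by
  intro i
  refine blk_shift (u j) ?_
  rw [Nat.add_sub_cancel' (hu.mono (Nat.le_add_right _ _)),
    Nat.add_sub_cancel' (hu.mono (Nat.le_add_right _ _))]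
  exact hu (j + i)

end Pool.Agent.Lib.MP_dee342_nt.Ar
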