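import Mathlib

/-! Blocks of an orbit: a periodic ascending run followed by a free part. -/

set_option autoImplicit false

namespace Pool.Agent.Lib.MP_dee342_nt

/-- The piece of `y` from `s` to `t` has at most `J log₂ |y s|` steps and no deep dip; up to `w` the
exponents `e` repeat with period `V` and ascend, and after `w` the piece climbs at most
`K (w - s) / (K + 1)` bits above any of its points. -/
def Block (a V K J : ℕ) (y : ℕ → ℤ) (e : ℕ → ℕ) (s t : ℕ) : Prop :=
  2 ^ (t - s) ≤ |y s| ^ J ∧ (∀ i, s ≤ i → i ≤ t → |y t| ≤ |y i| ^ K) ∧ ∃ w, s ≤ w ∧ w < t ∧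
    (∀ j, s ≤ j → j < w → 2 ^ (∑ i ∈ Finset.range V, e (j + i)) < a ^ V ∧ e (j + V) = e j) ∧
    ∀ i, w < i → i ≤ t → |y t| ^ (K + 1) ≤ 2 ^ (K * (w - s)) * |y i| ^ (K + 1)

end Pool.Agent.Lib.MP_dee342_nt
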