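import Pool.Agent.Lib.MP_dee342_nt.Ar4.Bas

/-! Periodic extension of a cutting into blocks. -/

namespace Pool.Agent.Lib.MP_dee342_nt.Ar

open Finset

theorem b4ext_per {α : Type} (y : ℕ → α) {P : ℕ} (hy : ∀ i, y (i + P) = y i) (q i : ℕ) :
    y (i + q * P) = y i := by
  induction q with
  | zero => simp
  | succ q ih => rw [Nat.succ_mul, ← add_assoc, hy, ih]

theorem b4ext_succ {M : ℕ} (u : ℕ → ℕ) (hM : 0 < M) (hu0 : u 0 = 0) (i : ℕ) :
    u ((i + 1) % M) + (i + 1) / M * u M = u (i % M + 1) + i / M * u M := by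
  have h1 := Nat.mod_lt i hM
  have h2 := Nat.mod_add_div i M
  by_cases h : i % M + 1 = M
  · have h3 : i + 1 = M * (i / M + 1) := by rw [mul_add, mul_one]; omega
    rw [h, h3, Nat.mul_mod_right, hu0, Nat.mul_div_cancel_left _ hM, add_mul]
    omega
  · have h3 : i + 1 = i % M + 1 + M * (i / M) := by omega
    rw [h3, Nat.add_mul_mod_self_left, Nat.add_mul_div_left _ _ hM,
      Nat.mod_eq_of_lt (show i % M + 1 < M by omega),
      Nat.div_eq_of_lt (show i % M + 1 < M by omega), zero_add]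

theorem b4ext_up {a V K J s t c : ℕ} {y : ℕ → ℤ} {e : ℕ → ℕ} (hy : ∀ i, y (i + c) = y i)
    (he : ∀ i, e (i + c) = e i) (h : Block a V K J y e s t) :
    Block a V K J y e (s + c) (t + c) := by
  obtain ⟨h1, h2, w, h3, h4, h5, h6⟩ := h
  refine ⟨by rwa [Nat.add_sub_add_right, hy], fun i k1 k2 => ?_, w + c, by omega, by omega,
    fun j k1 k2 => ?_, fun i k1 k2 => ?_⟩
  · obtain ⟨i, rfl⟩ : ∃ i', i = i' + c := ⟨i - c, by omega⟩
    rw [hy, hy]
    exact h2 i (by omega) (by omega)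
  · obtain ⟨j, rfl⟩ : ∃ j', j = j' + c := ⟨j - c, by omega⟩
    simp only [add_right_comm j c, he]
    exact h5 j (by omega) (by omega)
  · obtain ⟨i, rfl⟩ : ∃ i', i = i' + c := ⟨i - c, by omega⟩
    rw [hy, hy, Nat.add_sub_add_right]
    exact h6 i (by omega) (by omega)

/-- Twin of `cut_ext` in `Ar2/Ext.lean`: `w i = u (i % M) + i / M * u M`. -/
theorem bcut_ext {a V K J M : ℕ} (y : ℕ → ℤ) (e u : ℕ → ℕ) (hM : 0 < M) (hu0 : u 0 = 0)
    (hy : ∀ i, y (i + u M) = y i) (he : ∀ i, e (i + u M) = e i)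
    (hu : ∀ i < M, Block a V K J y e (u i) (u (i + 1))) :
    ∃ w : ℕ → ℕ, w 0 = 0 ∧ BCut a V K J y e w ∧ ∀ i, w (i + M) = w i + u M := by
  refine ⟨fun i => u (i % M) + i / M * u M, by simp [hu0], fun i => ?_, fun i => ?_⟩
  · simp only [b4ext_succ u hM hu0]
    exact b4ext_up (b4ext_per y hy _) (b4ext_per e he _) (hu _ (Nat.mod_lt i hM))
  · simp only [Nat.add_mod_right, Nat.add_div_right _ hM, add_mul, one_mul, add_assoc]

end Pool.Agent.Lib.MP_dee342_nt.Ar
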