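import Pool.Agent.Lib.MP_dee342_nt.Ar.Seq

/-! The halvings of the runs pay for the climbs of the free parts. -/

namespace Pool.Agent.Lib.MP_dee342_nt.Ar

open Finset

/-- Induction on `n`; `bb e (u j) + (w j - u j) ≤ bb e (w j)` by `bb_add`, `le_bb`, and
`(K + 1) (K l / (K + 1)) ≤ K l`. -/
theorem gainB (K : ℕ) {e : ℕ → ℕ} (he : ∀ i, 1 ≤ e i) {u w : ℕ → ℕ} (_ : u 0 = 0)
    (h1 : ∀ i, u i ≤ w i) (h2 : ∀ i, w i ≤ u (i + 1)) (n : ℕ) :
    (K + 1) * ∑ j ∈ range n, (bb e (u (j + 1)) - bb e (w j) + (K * (w j - u j) / (K + 1) + 1)) +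
      ∑ j ∈ range n, (w j - u j) ≤ (K + 1) * (bb e (u n) + n) := by
  induction n with
  | zero => simp
  | succ n ih =>
    rw [sum_range_succ, sum_range_succ]
    have k1 : bb e (u n) + (w n - u n) ≤ bb e (w n) := by
      have k0 := bb_add e (u n) (w n - u n)
      rw [Nat.add_sub_cancel' (h1 n)] at k0
      have k2 := le_bb (e := fun i => e (u n + i)) (fun i => he _) (w n - u n)
      omega
    obtain ⟨c, hc⟩ := Nat.exists_eq_add_of_le k1
    obtain ⟨b, hb⟩ := Nat.exists_eq_add_of_le (bb_mono e (h2 n))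
    have k3 := Nat.mul_div_le (K * (w n - u n)) (K + 1)
    rw [hb, Nat.add_sub_cancel_left, hc]
    generalize K * (w n - u n) / (K + 1) = x at k3 ⊢
    generalize w n - u n = l at k3 ⊢
    nlinarith [Nat.zero_le (K * c)]

end Pool.Agent.Lib.MP_dee342_nt.Ar
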