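import Pool.Agent.Lib.MP_dee342_nt.Ar4.Bas

/-! The number of halvings in a chain of blocks. -/

namespace Pool.Agent.Lib.MP_dee342_nt.Ar

open Finset

theorem b4len_grow {a : ℕ} (y : ℕ → ℤ) (e : ℕ → ℕ)
    (h : ∀ i, 2 ^ e i * y (i + 1) = a * y i + 1) (s k : ℕ)
    (h1 : ∀ j < k, 1 ≤ |y (s + j)|) :
    (2 : ℤ) ^ bb e (s + k) * |y (s + k)| ≤ 2 ^ (bb e s + a * k) * |y s| := by
  induction k with
  | zero => simp
  | succ k ih =>
    have i1 := ih fun j hj => h1 j (by omega)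
    have h5 : (a : ℤ) + 1 ≤ 2 ^ a := by exact_mod_cast Nat.lt_two_pow_self
    have h3 : 2 ^ e (s + k) * |y (s + k + 1)| ≤ 2 ^ a * |y (s + k)| := by
      have h4 := abs_add_le (a * y (s + k)) 1
      rw [← h (s + k), abs_mul, abs_mul, abs_one, abs_pow, abs_two, Nat.abs_cast] at h4
      have h6 := h1 k (by omega)
      nlinarith
    rw [← add_assoc, bb_succ, pow_add]
    calc _ = (2 : ℤ) ^ bb e (s + k) * (2 ^ e (s + k) * |y (s + k + 1)|) := by ring
      _ ≤ 2 ^ bb e (s + k) * (2 ^ a * |y (s + k)|) := by gcongr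
      _ = 2 ^ a * (2 ^ bb e (s + k) * |y (s + k)|) := by ring
      _ ≤ 2 ^ a * (2 ^ (bb e s + a * k) * |y s|) := by gcongr
      _ = _ := by ring

theorem b4len_piece {a V K J L : ℕ} (y : ℕ → ℤ) (e : ℕ → ℕ)
    (h : ∀ i, 2 ^ e i * y (i + 1) = a * y i + 1) {u : ℕ → ℕ} (hu : BCut a V K J y e u)
    {i : ℕ}
    (h2 : |y (u i)| ≤ 2 ^ L) : bb e (u (i + 1)) ≤ bb e (u i) + (a * J + 1) * L := by
  obtain ⟨k, hk⟩ := Nat.exists_eq_add_of_le (blk_lt (hu i)).le
  have hK := hu.pos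
  obtain ⟨-, h3⟩ := blk_two (hu (i + 1))
  obtain ⟨h5, h6, -⟩ := hu i
  have h4 : ∀ j < k, 1 ≤ |y (u i + j)| := fun j hj => by
    have h7 := h6 (u i + j) (by omega) (by omega)
    by_contra c
    have h8 : |y (u i + j)| = 0 := by
      have := abs_nonneg (y (u i + j))
      omega
    rw [h8, zero_pow (by omega)] at h7
    omega
  rw [show u (i + 1) - u i = k by omega] at h5
  have h7 : |y (u i)| ^ J ≤ (2 ^ L) ^ J := by gcongr
  rw [← pow_mul] at h7
  have h8 := (pow_le_pow_iff_right₀ one_lt_two).1 (h5.trans h7)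
  have h9 := b4len_grow y e h (u i) k h4
  rw [← hk] at h9
  have h10 : (2 : ℤ) ^ bb e (u (i + 1)) ≤ 2 ^ (bb e (u i) + a * k + L) := by
    have h7 : (0 : ℤ) < 2 ^ bb e (u (i + 1)) := by positivity
    rw [pow_add _ _ L]
    exact le_trans (by nlinarith) (h9.trans (by gcongr))
  have h11 := (pow_le_pow_iff_right₀ one_lt_two).1 h10
  nlinarith [Nat.mul_le_mul_left a h8]

/-- Twin of `len_piece` in `Ar2/Len0.lean`. All points of a block are nonzero
(`2 ≤ |y t| ≤ |y i| ^ K`, `blk_two` for this block and the next), so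
`2 ^ e j |y (j + 1)| ≤ (a + 1) |y j| ≤ 2 ^ a |y j|`; a block has at most `J L` steps and hence at
most `a J L + L` halvings. Induction on `n`. -/
theorem lengthB {a V K J L : ℕ} (y : ℕ → ℤ) (e : ℕ → ℕ)
    (h : ∀ i, 2 ^ e i * y (i + 1) = a * y i + 1) {u : ℕ → ℕ} (hu0 : u 0 = 0)
    (hu : BCut a V K J y e u) (n : ℕ) (hL : ∀ i < n, |y (u i)| ≤ 2 ^ L) :
    bb e (u n) ≤ n * ((a * J + 1) * L) := by
  induction n with
  | zero => simp [hu0, bb]
  | succ n ih =>
    have h1 := ih fun i hi => hL i (by omega)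
    have h2 := b4len_piece y e h hu (hL n (by omega))
    rw [add_mul, one_mul]
    omega

end Pool.Agent.Lib.MP_dee342_nt.Ar
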