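import Pool.Agent.Lib.MP_dee342_nt.Ar.Seq

/-! Last exits and first entries for a sequence that grows by at most a power. -/

namespace Pool.Agent.Lib.MP_dee342_nt.Ar

open Finset

theorem b4lev0_one {A K : ℕ} (hA : 1 ≤ A) (hK : 1 ≤ K) {y : ℕ → ℤ}
    (h : ∀ i m : ℕ, |y i| ≤ 2 ^ m → |y (i + 1)| ≤ 2 ^ (K * m)) {L k : ℕ}
    (h0 : |y 0| ≤ 2 ^ L) (hk : 2 ^ (4 * A * L) < |y k|) :
    ∃ s n : ℕ, s + n ≤ k ∧ 1 ≤ s ∧ (∀ i < s + n, |y i| ≤ 2 ^ (4 * A * L)) ∧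
      (∀ i < s + n, |y i| ≤ 2 ^ L → i < s) ∧ (∀ i ≤ n, 2 ^ L ≤ |y (s + i)|) ∧
      (∀ i ≤ n, |y (s + i)| ≤ 2 ^ (K * (4 * A * L))) ∧ |y s| ≤ 2 ^ (K * L) ∧
      2 ^ (4 * A * L) < |y (s + n)| := by
  classical
  have hex : ∃ i, 2 ^ (4 * A * L) < |y i| := ⟨k, hk⟩
  have p : ∀ {u v : ℕ}, u ≤ v → (2 : ℤ) ^ u ≤ 2 ^ v := fun h => pow_le_pow_right₀ one_le_two h
  have hL4 : L ≤ 4 * A * L := Nat.le_mul_of_pos_left _ (by omega)
  have t1 := Nat.find_spec hex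
  have t2 : ∀ i < Nat.find hex, |y i| ≤ 2 ^ (4 * A * L) := fun i hi =>
    not_lt.1 (Nat.find_min hex hi)
  have t3 : Nat.find hex ≤ k := Nat.find_min' hex hk
  generalize Nat.find hex = t at t1 t2 t3
  obtain ⟨t, rfl⟩ : ∃ u, t = u + 1 := Nat.exists_eq_succ_of_ne_zero fun c =>
    absurd (h0.trans (p hL4)) (not_le.2 (c ▸ t1))
  have u1 : |y (Nat.findGreatest (fun i => |y i| ≤ 2 ^ L) t)| ≤ 2 ^ L :=
    Nat.findGreatest_spec (P := fun i => |y i| ≤ 2 ^ L) (Nat.zero_le t) h0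
  have u2 : ∀ i ≤ t, |y i| ≤ 2 ^ L → i ≤ Nat.findGreatest (fun i => |y i| ≤ 2 ^ L) t :=
    fun i hi c => Nat.le_findGreatest hi c
  obtain ⟨n, hn⟩ := Nat.exists_eq_add_of_le (Nat.findGreatest_le (P := fun i => |y i| ≤ 2 ^ L) t)
  generalize Nat.findGreatest (fun i => |y i| ≤ 2 ^ L) t = u at u1 u2 hn
  have e1 : u + 1 + n = t + 1 := by omega
  refine ⟨u + 1, n, by omega, by omega, e1 ▸ t2, fun i hi c => ?_, fun i hi => ?_, fun i hi => ?_,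
    h _ _ u1, e1 ▸ t1⟩
  · have := u2 i (by omega) c
    omega
  · rcases hi.lt_or_eq with c | rfl
    · by_contra c'
      have := u2 (u + 1 + i) (by omega) (not_le.1 c').le
      omega
    · exact e1 ▸ (p hL4).trans t1.le
  · rcases hi.lt_or_eq with c | rfl
    · exact (t2 _ (by omega)).trans (p (Nat.le_mul_of_pos_left _ hK))
    · exact e1 ▸ h _ _ (t2 t t.lt_succ_self)

/-- Twin of `levM_one`, `levM_windows` in `Ar2/Lev.lean` (copy both proofs): window `w` starts after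
the last point at most `2 ^ L`, `L = K ((4 A) ^ w Z)`, before the first point above
`2 ^ (4 A L)`, and ends there. -/
theorem levB_windows {A K : ℕ} (hA : 1 ≤ A) (hK : 1 ≤ K) (y : ℕ → ℤ)
    (h : ∀ i m : ℕ, |y i| ≤ 2 ^ m → |y (i + 1)| ≤ 2 ^ (K * m)) {Z H k : ℕ}
    (h0 : |y 0| ≤ 2 ^ (K * Z)) (hk : 2 ^ (K * ((4 * A) ^ H * Z)) < |y k|) :
    ∃ s n : ℕ → ℕ, ∀ w < H, s w + n w ≤ k ∧ (w + 1 < H → s w + n w ≤ s (w + 1)) ∧
      (∀ i ≤ n w, 2 ^ (K * ((4 * A) ^ w * Z)) ≤ |y (s w + i)|) ∧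
      (∀ i ≤ n w, |y (s w + i)| ≤ 2 ^ (K * (4 * A * (K * ((4 * A) ^ w * Z))))) ∧
      |y (s w)| ≤ 2 ^ (K * (K * ((4 * A) ^ w * Z))) ∧
      2 ^ (4 * A * (K * ((4 * A) ^ w * Z))) ≤ |y (s w + n w)| := by
  have p : ∀ {u v : ℕ}, u ≤ v → (2 : ℤ) ^ u ≤ 2 ^ v := fun h => pow_le_pow_right₀ one_le_two h
  have e1 : ∀ w, K * ((4 * A) ^ (w + 1) * Z) = 4 * A * (K * ((4 * A) ^ w * Z)) := fun w => by ring
  have m : ∀ {u v : ℕ}, u ≤ v → K * ((4 * A) ^ u * Z) ≤ K * ((4 * A) ^ v * Z) := fun h =>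
    Nat.mul_le_mul_left _ (Nat.mul_le_mul_right _ (Nat.pow_le_pow_right (by omega) h))
  have z : ∀ w, K * Z ≤ K * ((4 * A) ^ w * Z) := fun w => by simpa using m (Nat.zero_le w)
  choose! s n hs using fun w (hw : w < H) => b4lev0_one hA hK (y := y) h
    (L := K * ((4 * A) ^ w * Z)) (k := k)
    (h0.trans (p (z w))) ((p (e1 w ▸ m hw)).trans_lt hk)
  refine ⟨s, n, fun w hw => ?_⟩
  obtain ⟨a1, a2, a3, -, a5, a6, a7, a8⟩ := hs w hw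
  refine ⟨a1, fun hw' => ?_, a5, a6, a7, a8.le⟩
  obtain ⟨-, -, -, b4, -, -, -, b8⟩ := hs (w + 1) hw'
  have c1 : s w + n w ≤ s (w + 1) + n (w + 1) := not_lt.1 fun c =>
    absurd ((a3 _ c).trans (p (e1 w ▸ e1 (w + 1) ▸ m (by omega)))) (not_le.2 b8)
  have := b4 (s w + n w - 1) (by omega) (e1 w ▸ a3 _ (by omega))
  omega

end Pool.Agent.Lib.MP_dee342_nt.Ar
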