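import Pool.Agent.Lib.MP_dee342_nt.Ar.Seq

/-! The constant of the free part of a block. -/

namespace Pool.Agent.Lib.MP_dee342_nt.Ar

open Finset

/-- Twin of `piece` in `Ar2/Piece.lean`. Induction on `t'` from `w` to `t` with
`|2 ^ bb e t' D t' - a ^ (t' - w) 2 ^ bb e w D w| a ^ (t - t') μ ≤ (t' - w) W X`; the step adds
`c t' 2 ^ bb e t'` and uses `hp (t' + 1)`. -/
theorem pieceX {a : ℕ} (e : ℕ → ℕ) (D c : ℕ → ℤ) (W μ X : ℤ) (hμ : 0 ≤ μ)
    (hD : ∀ i, 2 ^ e i * D (i + 1) = a * D i + c i) (hc : ∀ i, |c i| ≤ W * 2 ^ e i) {w t : ℕ}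
    (hwt : w ≤ t) (hp : ∀ i, w < i → i ≤ t → (a : ℤ) ^ (t - i) * 2 ^ bb e i * μ ≤ X) :
    |2 ^ bb e t * D t - a ^ (t - w) * (2 ^ bb e w * D w)| * μ ≤ (t - w : ℕ) * W * X := by
  have hW : 0 ≤ W := nonneg_of_mul_nonneg_left ((abs_nonneg _).trans (hc 0)) (by positivity)
  have key : ∀ k r : ℕ, w + k + r = t →
      |2 ^ bb e (w + k) * D (w + k) - a ^ k * (2 ^ bb e w * D w)| * (a ^ r * μ) ≤ k * W * X := by
    intro k
    induction k with
    | zero =>
      intro r _
      simp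
    | succ k ih =>
      intro r hr
      have h1 := ih (r + 1) (by omega)
      have h2 := hp (w + k + 1) (by omega) (by omega)
      rw [show t - (w + k + 1) = r by omega, bb_succ, pow_add] at h2
      have e1 : (2 : ℤ) ^ bb e (w + (k + 1)) * D (w + (k + 1)) - a ^ (k + 1) * (2 ^ bb e w * D w) =
          a * (2 ^ bb e (w + k) * D (w + k) - a ^ k * (2 ^ bb e w * D w)) +
            2 ^ bb e (w + k) * c (w + k) := by
        rw [← add_assoc, bb_succ, pow_add, mul_assoc, hD]
        ring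
      have h3 : |(a : ℤ) * (2 ^ bb e (w + k) * D (w + k) - a ^ k * (2 ^ bb e w * D w)) +
          2 ^ bb e (w + k) * c (w + k)| ≤
          a * |2 ^ bb e (w + k) * D (w + k) - a ^ k * (2 ^ bb e w * D w)| +
            2 ^ bb e (w + k) * (W * 2 ^ e (w + k)) := by
        refine (abs_add_le _ _).trans ?_
        rw [abs_mul, abs_mul, Nat.abs_cast, abs_of_nonneg (by positivity : (0 : ℤ) ≤ 2 ^ _)]
        have := hc (w + k)
        gcongr
      have h4 : (0 : ℤ) ≤ a ^ r * μ := by positivity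
      rw [e1]
      refine (mul_le_mul_of_nonneg_right h3 h4).trans ?_
      have h5 := mul_le_mul_of_nonneg_left h2 hW
      rw [pow_succ] at h1
      push_cast
      linarith
  have h := key (t - w) 0 (by omega)
  rwa [Nat.add_sub_cancel' hwt, pow_zero, one_mul] at h

end Pool.Agent.Lib.MP_dee342_nt.Ar
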