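import Pool.Agent.Lib.MP_dee342_nt.Ar.Seq

/-! The telescoped relation with one term for each block. -/

namespace Pool.Agent.Lib.MP_dee342_nt.Ar

open Finset

/-- A stretch without error terms. -/
theorem b4rep_free {a : ℕ} (e : ℕ → ℕ) (D c : ℕ → ℤ)
    (hD : ∀ i, 2 ^ e i * D (i + 1) = a * D i + c i) (s k : ℕ)
    (hc : ∀ j, s ≤ j → j < s + k → c j = 0) :
    2 ^ bb e (s + k) * D (s + k) = a ^ k * (2 ^ bb e s * D s) := by
  induction k with
  | zero => simp
  | succ k ih =>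
    have h1 := ih fun j h2 h3 => hc j h2 (by omega)
    have h2 := hD (s + k)
    rw [hc (s + k) (by omega) (by omega)] at h2
    rw [← add_assoc, bb_succ, pow_add, pow_succ]
    linear_combination (2 : ℤ) ^ bb e (s + k) * h2 + a * h1

/-- First `2 ^ bb e w * D w = a ^ (w - s) * (2 ^ bb e s * D s)` when `c = 0` on `[s, w)`; then
induction on `n`. -/
theorem rep4 {a : ℕ} (e : ℕ → ℕ) (D c : ℕ → ℤ) (hD : ∀ i, 2 ^ e i * D (i + 1) = a * D i + c i)
    {u w : ℕ → ℕ} (hu0 : u 0 = 0) (h1 : ∀ i, u i ≤ w i) (h2 : ∀ i, w i ≤ u (i + 1))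
    (hc0 : ∀ i j, u i ≤ j → j < w i → c j = 0) (n : ℕ) :
    2 ^ bb e (u n) * D (u n) = a ^ u n * D 0 + ∑ j ∈ range n,
      (2 ^ (bb e (u (j + 1)) - bb e (w j)) * D (u (j + 1)) - a ^ (u (j + 1) - w j) * D (w j)) *
        (a ^ (u n - u (j + 1)) * 2 ^ bb e (w j)) := by
  have hm : Monotone u := monotone_nat_of_le_succ fun i => (h1 i).trans (h2 i)
  induction n with
  | zero => simp [hu0, bb]
  | succ n ih =>
    have k1 := h1 n
    have k2 := h2 n
    have h3 := b4rep_free e D c hD (u n) (w n - u n) fun j h4 h5 => hc0 n j h4 (by omega)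
    rw [Nat.add_sub_cancel' k1] at h3
    have h4 : ∑ j ∈ range n,
        (2 ^ (bb e (u (j + 1)) - bb e (w j)) * D (u (j + 1)) - a ^ (u (j + 1) - w j) * D (w j)) *
          ((a : ℤ) ^ (u (n + 1) - u (j + 1)) * 2 ^ bb e (w j)) =
        a ^ (u (n + 1) - w n) * a ^ (w n - u n) * ∑ j ∈ range n,
          (2 ^ (bb e (u (j + 1)) - bb e (w j)) * D (u (j + 1)) - a ^ (u (j + 1) - w j) * D (w j)) *
            ((a : ℤ) ^ (u n - u (j + 1)) * 2 ^ bb e (w j)) := by
      rw [mul_sum]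
      refine sum_congr rfl fun j hj => ?_
      have h5 : u (j + 1) ≤ u n := hm (mem_range.1 hj)
      rw [show u (n + 1) - u (j + 1) = u (n + 1) - w n + (w n - u n) + (u n - u (j + 1)) by omega,
        pow_add, pow_add]
      ring
    have h5 : (2 : ℤ) ^ bb e (u (n + 1)) =
        2 ^ (bb e (u (n + 1)) - bb e (w n)) * 2 ^ bb e (w n) := by
      rw [← pow_add, Nat.sub_add_cancel (bb_mono e k2)]
    have h6 : (a : ℤ) ^ u (n + 1) = a ^ (u (n + 1) - w n) * a ^ (w n - u n) * a ^ u n := by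
      rw [← pow_add, ← pow_add]
      congr 1
      omega
    rw [sum_range_succ, h4, Nat.sub_self, pow_zero]
    linear_combination D (u (n + 1)) * h5 - D 0 * h6 + (a : ℤ) ^ (u (n + 1) - w n) * h3 +
      (a : ℤ) ^ (u (n + 1) - w n) * a ^ (w n - u n) * ih

end Pool.Agent.Lib.MP_dee342_nt.Ar
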