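import Pool.Agent.Lib.MP_dee342_nt.Ar2.Size3

/-! Odd steps against halvings in a block. -/

namespace Pool.Agent.Lib.MP_dee342_nt.Ar

open Finset

/-- With `ρ = K * l / (K + 1) + 1` we have `K l ≤ (K + 1) ρ`, so `|y t| ≤ 2 ^ ρ |y i|`
(`pow_le_pow_left₀` backwards); `size3` for the sequences shifted by `i` with `n = t - i`, `bb_add`;
cancel `|y i| > 0`. Twin: `desc_pow` in `Ar2/Size3.lean`. -/
theorem rise_pow {a K l : ℕ} (y : ℕ → ℤ) (e : ℕ → ℕ)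
    (h : ∀ i, 2 ^ e i * y (i + 1) = a * y i + 1) {w t : ℕ}
    (h1 : ∀ i, w < i → i ≤ t → ((t - w : ℕ) : ℤ) ≤ |y i|)
    (h2 : ∀ i, w < i → i ≤ t → |y t| ^ (K + 1) ≤ 2 ^ (K * l) * |y i| ^ (K + 1)) :
    ∀ i, w < i → i ≤ t → a ^ (t - i) * 2 ^ bb e i ≤ 3 * 2 ^ (bb e t + (K * l / (K + 1) + 1)) := by
  intro i hs ht
  obtain ⟨n, rfl⟩ := Nat.exists_eq_add_of_le ht
  obtain ⟨ρ, hρ⟩ : ∃ ρ, ρ = K * l / (K + 1) + 1 := ⟨_, rfl⟩
  have hl : K * l ≤ ρ * (K + 1) := by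
    rw [hρ, mul_comm _ (K + 1)]
    exact (Nat.lt_mul_div_succ _ (Nat.succ_pos K)).le
  have h3 := size3 (a := a) (fun j => y (i + j)) (fun j => e (i + j)) (fun j => h (i + j)) (n := n)
    (fun j hj => le_trans (by exact_mod_cast (by omega : n ≤ i + n - w))
      (h1 (i + j) (by omega) (by omega))) n le_rfl
  simp only [add_zero] at h3
  have h4 : |y (i + n)| ≤ 2 ^ ρ * |y i| := by
    refine (pow_le_pow_iff_left₀ (abs_nonneg _) (by positivity) (Nat.succ_ne_zero K)).1 ?_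
    rw [mul_pow, ← pow_mul]
    exact (h2 i hs ht).trans (mul_le_mul_of_nonneg_right (pow_le_pow_right₀ one_le_two hl)
      (by positivity))
  have h5 : 0 < |y i| :=
    lt_of_lt_of_le (by exact_mod_cast (by omega : 0 < i + n - w)) (h1 i hs ht)
  have h6 : (a : ℤ) ^ n ≤ 3 * 2 ^ bb (fun j => e (i + j)) n * 2 ^ ρ := by
    refine le_of_mul_le_mul_right (h3.trans ?_) h5
    rw [mul_assoc _ (2 ^ ρ)]
    gcongr
  have h7 : a ^ n ≤ 3 * 2 ^ bb (fun j => e (i + j)) n * 2 ^ ρ := by exact_mod_cast h6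
  rw [← hρ, Nat.add_sub_cancel_left, bb_add, pow_add, pow_add]
  calc a ^ n * 2 ^ bb e i ≤ 3 * 2 ^ bb (fun j => e (i + j)) n * 2 ^ ρ * 2 ^ bb e i := by gcongr
    _ = _ := by ring

end Pool.Agent.Lib.MP_dee342_nt.Ar
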