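import Pool.Agent.Lib.MP_dee342_nt.Ar.Seq

/-! Odd steps against halvings in a chain of blocks. -/

namespace Pool.Agent.Lib.MP_dee342_nt.Ar

open Finset

/-- Induction on `n`. In block `j`, with `l = w j - u j`, `hp` gives
`a ^ (u (j + 1) - u j) 2 ^ bb e (u j) ≤ a ^ (l + 1) * 3 * 2 ^ (l + 1) * 2 ^ bb e (u (j + 1))`
(`bb_mono`), and `3 * 2 ^ (l + 1) ≤ a ^ (l + 3)`. -/
theorem size2B {a : ℕ} (ha3 : 3 ≤ a) (e : ℕ → ℕ) {u w : ℕ → ℕ} (hu0 : u 0 = 0)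
    (h1 : ∀ i, u i ≤ w i) (h2 : ∀ i, w i < u (i + 1)) (n : ℕ)
    (hp : ∀ j < n, a ^ (u (j + 1) - (w j + 1)) * 2 ^ bb e (w j + 1) ≤
      3 * 2 ^ (bb e (u (j + 1)) + (w j - u j + 1))) :
    a ^ u n ≤ 2 ^ bb e (u n) * a ^ (2 * ∑ j ∈ range n, (w j - u j) + 4 * n) := by
  induction n with
  | zero => simp [hu0, bb]
  | succ n ih =>
    have ih' := ih fun j hj => hp j (by omega)
    have h := hp n (by omega)
    have k1 := h1 n
    have k2 := h2 n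
    have hb : 2 ^ bb e (u n) ≤ 2 ^ bb e (w n + 1) :=
      Nat.pow_le_pow_right two_pos (bb_mono e (by omega))
    rw [sum_range_succ]
    generalize ∑ j ∈ range n, (w j - u j) = S at ih' ⊢
    obtain ⟨l, hl⟩ : ∃ l, w n - u n = l := ⟨_, rfl⟩
    obtain ⟨r, hr⟩ : ∃ r, u (n + 1) - (w n + 1) = r := ⟨_, rfl⟩
    rw [hl, hr] at h
    rw [hl]
    have h3 : 3 * 2 ^ (l + 1) ≤ a ^ (l + 3) :=
      calc 3 * 2 ^ (l + 1) ≤ a * a ^ (l + 1) :=
            Nat.mul_le_mul ha3 (Nat.pow_le_pow_left (by omega) _)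
        _ = a ^ (l + 2) := by ring
        _ ≤ a ^ (l + 3) := Nat.pow_le_pow_right (by omega) (by omega)
    calc a ^ u (n + 1) = a ^ u n * a ^ (l + 1) * a ^ r := by
          rw [← pow_add, ← pow_add]; congr 1; omega
      _ ≤ 2 ^ bb e (w n + 1) * a ^ (2 * S + 4 * n) * a ^ (l + 1) * a ^ r :=
          Nat.mul_le_mul_right _ (Nat.mul_le_mul_right _
            (ih'.trans (Nat.mul_le_mul_right _ hb)))
      _ = a ^ r * 2 ^ bb e (w n + 1) * (a ^ (2 * S + 4 * n) * a ^ (l + 1)) := by ring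
      _ ≤ 3 * 2 ^ (bb e (u (n + 1)) + (l + 1)) * (a ^ (2 * S + 4 * n) * a ^ (l + 1)) :=
          Nat.mul_le_mul_right _ h
      _ = 2 ^ bb e (u (n + 1)) * (3 * 2 ^ (l + 1) * (a ^ (2 * S + 4 * n) * a ^ (l + 1))) := by
          ring
      _ ≤ 2 ^ bb e (u (n + 1)) * (a ^ (l + 3) * (a ^ (2 * S + 4 * n) * a ^ (l + 1))) :=
          Nat.mul_le_mul_left _ (Nat.mul_le_mul_right _ h3)
      _ = 2 ^ bb e (u (n + 1)) * a ^ (2 * (S + l) + 4 * (n + 1)) := by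
          rw [← pow_add, ← pow_add]; congr 2; omega

end Pool.Agent.Lib.MP_dee342_nt.Ar
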