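import Pool.Agent.Lib.MP_dee342_nt.Ar2.Win
import Pool.Agent.Lib.MP_dee342_nt.Ar4.Piece
import Pool.Agent.Lib.MP_dee342_nt.Ar4.Rep
import Pool.Agent.Lib.MP_dee342_nt.Ar4.Rise
import Pool.Agent.Lib.MP_dee342_nt.Ar4.Size
import Pool.Agent.Lib.MP_dee342_nt.Ar4.Gain
import Pool.Agent.Lib.MP_dee342_nt.Ar4.Len

/-! A climb with few blocks gives a weighted window. -/

namespace Pool.Agent.Lib.MP_dee342_nt.Ar

open Finset

/-- The differences to the periodic points of the ascending words of length `V`. -/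
def Rp (a V Q P : ℕ) : Prop := ∀ (y : ℕ → ℤ) (e : ℕ → ℕ),
  (∀ i, 2 ^ e i * y (i + 1) = a * y i + 1) →
    ∃ D c : ℕ → ℤ, (∀ i, |D i - Q * y i| ≤ P) ∧ (∀ i, 2 ^ e i * D (i + 1) = a * D i + c i) ∧
      (∀ i, 2 ^ (∑ j ∈ range V, e (i + j)) < a ^ V → e (i + V) = e i → c i = 0) ∧
      ∀ i, |c i| ≤ P * (a + 2) * 2 ^ e i

theorem winB_int {a b n I x z : ℕ} {u v : ℤ} (h1 : 2 ^ b * v ≤ 3 * (a : ℤ) ^ n * u)
    (h2 : a ^ n ≤ 2 ^ b * a ^ I) (h3 : 2 ^ x ≤ v) (h5 : u ≤ 2 ^ z) : x ≤ 2 + a * I + z := by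
  have k1 : a ^ I ≤ 2 ^ (a * I) := by
    rw [pow_mul]
    exact Nat.pow_le_pow_left Nat.lt_two_pow_self.le _
  have k2 : (a : ℤ) ^ n ≤ 2 ^ b * 2 ^ (a * I) := by
    exact_mod_cast h2.trans (Nat.mul_le_mul_left _ k1)
  have k3 : (2 : ℤ) ^ b * 2 ^ x ≤ 2 ^ b * 2 ^ (2 + a * I + z) :=
    calc (2 : ℤ) ^ b * 2 ^ x ≤ 2 ^ b * v := by gcongr
      _ ≤ 3 * (a : ℤ) ^ n * u := h1
      _ ≤ 3 * (a : ℤ) ^ n * 2 ^ z := by gcongr
      _ ≤ 4 * (2 ^ b * 2 ^ (a * I)) * 2 ^ z := by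
        gcongr
        norm_num
      _ = _ := by ring
  exact (pow_le_pow_iff_right₀ one_lt_two).1 (le_of_mul_le_mul_left k3 (by positivity))

theorem winB_num {a K A S l n : ℕ} (hK : 1 ≤ K) (hl : 1 ≤ l) (hn : n ≤ l)
    (hA : a * ((K + 1) * (K ^ 2 + 3)) + 4 * a + K ^ 2 + 2 ≤ A)
    (h : 4 * A * (K * l) ≤ 2 + a * (2 * S + 4 * n) + K * (K * l)) :
    (K + 1) * (K * (K * l) + 1 + l / 2 + n) ≤ S := by
  by_contra hc
  have k1 : (K + 1) * (K * (K * l) + 1 + l / 2 + n) ≤ (K + 1) * (K ^ 2 + 3) * l := by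
    rw [mul_assoc]
    refine Nat.mul_le_mul_left _ ?_
    have : (K ^ 2 + 3) * l = K * (K * l) + 3 * l := by ring
    omega
  have k2 : a * S ≤ a * ((K + 1) * (K ^ 2 + 3) * l) := Nat.mul_le_mul_left _ (by omega)
  have k3 := Nat.mul_le_mul_right l hA
  have k4 : A * l ≤ A * (K * l) := Nat.mul_le_mul_left _ (Nat.le_mul_of_pos_left _ hK)
  have k5 : a * n ≤ a * l := Nat.mul_le_mul_left _ hn
  have k6 : (a * ((K + 1) * (K ^ 2 + 3)) + 4 * a + K ^ 2 + 2) * l =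
      a * ((K + 1) * (K ^ 2 + 3) * l) + 4 * (a * l) + K * (K * l) + 2 * l := by ring
  have k7 : a * (2 * S + 4 * n) = 2 * (a * S) + 4 * (a * n) := by ring
  have k8 : 4 * A * (K * l) = 4 * (A * (K * l)) := by ring
  omega

theorem windowB {a V K J A Q P : ℕ} (ha3 : 3 ≤ a)
    (hA : a * ((K + 1) * (K ^ 2 + 3)) + 4 * a + K ^ 2 + 2 ≤ A) (q1 : 1 ≤ Q) (q2 : Q ≤ P)
    (q3 : P ≤ A) (hrep : Rp a V Q P) (y : ℕ → ℤ) (e : ℕ → ℕ) (he : ∀ i, 1 ≤ e i)
    (h : ∀ i, 2 ^ e i * y (i + 1) = a * y i + 1) {u : ℕ → ℕ} (hu0 : u 0 = 0)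
    (hu : BCut a V K J y e u) {R r l n : ℕ} (hR : 10 ^ 7 * (A + 4) ^ 4 ≤ R)
    (hr : 60 * A ^ 3 * (r + 1) ≤ R) (hl : R ^ 20 ≤ l) (hlo : ∀ i ≤ n, 2 ^ (K * l) ≤ |y (u i)|)
    (hhi : ∀ i ≤ n, |y (u i)| ≤ 2 ^ (K * (4 * A * (K * l)))) (h0 : |y 0| ≤ 2 ^ (K * (K * l)))
    (hn : 2 ^ (4 * A * (K * l)) ≤ |y (u n)|) (hJ : (J + 1) * n ≤ r) :
    BlkW a R (r + 1) (20 * A ^ 3 * (r + 1) * l) := by
  have hK := hu.pos
  have aA : a ≤ A := by omega
  have A3 : 3 ≤ A := ha3.trans aA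
  obtain ⟨w1, w2, w3, w4⟩ := win_num A3 hR hr hl
  have a1 : A ≤ A ^ 3 := Nat.le_self_pow (by norm_num) A
  have l1 : 60 * A ^ 3 * (r + 1) ≤ l := hr.trans ((Nat.le_self_pow (by norm_num) R).trans hl)
  have l2 : 60 * A + 60 * r ≤ l := by nlinarith
  have hJ' : n ≤ r := (Nat.le_mul_of_pos_left _ J.succ_pos).trans hJ
  have a2 : a * K ^ 2 ≤ A :=
    (Nat.mul_le_mul_left a (by nlinarith : K ^ 2 ≤ (K + 1) * (K ^ 2 + 3))).trans (by omega)
  have b3 : 3 * bb e (u n) ≤ 20 * A ^ 3 * (r + 1) * l :=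
    calc 3 * bb e (u n) ≤ 3 * (n * ((a * J + 1) * (K * (4 * A * (K * l))))) :=
          Nat.mul_le_mul_left _ (lengthB y e h hu0 hu n fun i hi => hhi i hi.le)
      _ ≤ 3 * (n * ((a * J + a) * (K * (4 * A * (K * l))))) := by
          gcongr
          omega
      _ = 12 * (a * K ^ 2) * A * 1 * ((J + 1) * n) * l := by ring
      _ ≤ 20 * A * A * A * (r + 1) * l := by
          gcongr <;> omega
      _ = _ := by ring
  have N1 : K * (K * l) + 3 * l ≤ 20 * A ^ 3 * (r + 1) * l := by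
    rw [show K * (K * l) + 3 * l = (K ^ 2 + 3) * l by ring]
    exact Nat.mul_le_mul_right _ (by nlinarith)
  have l3 : (2 : ℤ) * P ≤ 2 ^ l := by
    exact_mod_cast (show 2 * P ≤ l by omega).trans Nat.lt_two_pow_self.le
  have P1 : P * (a + 2) ≤ A ^ A * (A + 2) :=
    Nat.mul_le_mul (q3.trans (Nat.le_self_pow (by omega) A)) (by omega)
  generalize 20 * A ^ 3 * (r + 1) * l = N at *
  have b1 : bb e (u n) ≤ N := by omega
  have n0 := le_bb he (u n)
  have n1 : u n ≤ N := by omega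
  have lo : ∀ i ≤ u n, 2 ^ l ≤ |y i| := fun i hi => by
    obtain ⟨j, k1, k2⟩ := hu.low hu0 n i hi
    refine le_of_pow_le_pow_left₀ (n := K) (by omega) (abs_nonneg _) (le_trans ?_ k2)
    rw [← pow_mul, mul_comm]
    exact hlo j k1
  have lo' : ∀ i ≤ u n, ((u n : ℕ) : ℤ) ≤ |y i| := fun i hi =>
    le_trans (by exact_mod_cast n1.trans w2) (lo i hi)
  choose w c1 c2 c3 c4 using fun i => (hu i).2.2
  have m1 : ∀ j < n, u (j + 1) ≤ u n := fun j hj => hu.mono hj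
  have hp := fun j (hj : j < n) => rise_pow y e h (fun i _ k2 => le_trans
    (by exact_mod_cast (Nat.sub_le _ _).trans (m1 j hj)) (lo' i (k2.trans (m1 j hj)))) (c4 j)
  have ρ1 : ∀ j, K * (w j - u j) / (K + 1) ≤ w j - u j := fun j =>
    Nat.div_le_of_le_mul (Nat.mul_le_mul_right _ K.le_succ)
  have s1 := size1 (by omega) y e h (n := u n) fun i hi => lo' i hi.le
  have i1 := winB_int (s1 (u n) le_rfl) (size2B ha3 e hu0 c1 c2 n fun j hj =>
    (hp j hj _ (Nat.lt_succ_self _) (c2 j)).trans (Nat.mul_le_mul_left _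
      (Nat.pow_le_pow_right two_pos (by have := ρ1 j; omega)))) hn h0
  have i2 := winB_num hK (by omega) (by omega) hA i1
  have i3 := gainB K he hu0 c1 (fun i => (c2 i).le) n
  obtain ⟨E, hE⟩ : ∃ E : ℕ → ℕ,
    E = fun j => bb e (u (j + 1)) - bb e (w j) + (K * (w j - u j) / (K + 1) + 1) := ⟨_, rfl⟩
  have i4 : ∑ j ∈ range n, E j + (K * (K * l) + 1 + l / 2) ≤ bb e (u n) := by
    refine Nat.le_of_add_le_add_right (b := n) (Nat.le_of_mul_le_mul_left ?_ K.succ_pos)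
    rw [add_assoc, mul_add, hE]
    exact (Nat.add_le_add_left i2 _).trans i3
  obtain ⟨D, c, d1, d2, d3, d4⟩ := hrep y e h
  have r1 := rep4 e D c d2 hu0 c1 (fun i => (c2 i).le)
    (fun i j k1 k2 => d3 j (c3 i j k1 k2).1 (c3 i j k1 k2).2) n
  obtain ⟨s, hs⟩ : ∃ s : ℕ → ℤ, s = fun j =>
    2 ^ (bb e (u (j + 1)) - bb e (w j)) * D (u (j + 1)) - a ^ (u (j + 1) - w j) * D (w j) :=
    ⟨_, rfl⟩
  have r0 : ∀ j, bb e (w j) ≤ bb e (u (j + 1)) := fun j => bb_mono e (c2 j).le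
  have r2 : ∀ j, |2 ^ bb e (u (j + 1)) * D (u (j + 1)) -
      a ^ (u (j + 1) - w j) * (2 ^ bb e (w j) * D (w j))| = |s j| * 2 ^ bb e (w j) := fun j => by
    rw [← abs_of_pos (show (0 : ℤ) < 2 ^ bb e (w j) by positivity), ← abs_mul,
      abs_of_pos (show (0 : ℤ) < 2 ^ bb e (w j) by positivity), hs,
      ← pow_sub_mul_pow (2 : ℤ) (r0 j)]
    simp only []
    congr 1
    ring
  have W1 : ∀ j < n, ((u (j + 1) - w j : ℕ) : ℤ) * (P * (a + 2)) * 3 ≤
      (N * (A ^ A * (A + 2)) : ℕ) := fun j hj => by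
    have k1 := m1 j hj
    have k2 : (u (j + 1) - w j) * (P * (a + 2)) * 3 ≤ N * (A ^ A * (A + 2)) := by
      rw [mul_right_comm]
      exact Nat.mul_le_mul (by omega) P1
    exact_mod_cast k2
  have W3 : P ≤ N * (A ^ A * (A + 2)) := ((Nat.le_mul_of_pos_right _ (by omega)).trans P1).trans
    (Nat.le_mul_of_pos_left _ (by omega))
  generalize N * (A ^ A * (A + 2)) = W at *
  have W2 : ∀ j < n, |s j| ≤ W * 2 ^ E j := fun j hj => by
    have k1 := pieceX e D c (P * (a + 2)) 1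
      (3 * 2 ^ (bb e (u (j + 1)) + (K * (w j - u j) / (K + 1) + 1))) zero_le_one d2 d4 (c2 j).le
      fun i k1 k2 => by exact_mod_cast (mul_one _).trans_le (hp j hj i k1 k2)
    rw [r2, mul_one, ← mul_assoc, show bb e (u (j + 1)) + (K * (w j - u j) / (K + 1) + 1) =
      E j + bb e (w j) by have := r0 j; simp only [hE]; omega, pow_add, ← mul_assoc] at k1
    exact (le_of_mul_le_mul_right k1 (by positivity)).trans
      (mul_le_mul_of_nonneg_right (W1 j hj) (by positivity))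
  have q1' : (1 : ℤ) ≤ Q := by exact_mod_cast q1
  have q2' : (Q : ℤ) ≤ P := by exact_mod_cast q2
  have e1 : |(Q : ℤ) * y 0| = Q * |y 0| := by rw [abs_mul, abs_of_nonneg (by omega)]
  have e2 := abs_sub_abs_le_abs_sub (D 0) (Q * y 0)
  have e3 := abs_sub_abs_le_abs_sub (Q * y 0) (D 0)
  rw [abs_sub_comm] at e3
  have e4 := d1 0
  have e5 := l3.trans (lo 0 (Nat.zero_le _))
  have D1 : |y 0| ≤ 2 * |D 0| := by nlinarith
  have D2 : |D 0| ≤ W * 2 ^ (K * (K * l) + 1) :=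
    calc |D 0| ≤ P * (2 * |y 0|) := by nlinarith
      _ ≤ W * (2 * 2 ^ (K * (K * l))) := by gcongr
      _ = _ := by ring
  have W4 : ∀ j < n, 2 ^ (l / 2) * |s j * ((a : ℤ) ^ (u n - u (j + 1)) * 2 ^ bb e (w j))| ≤
      |D 0 * ((a : ℤ) ^ u n * 2 ^ 0)| := fun j hj => by
    have k0 := m1 j hj
    have k1 := pieceX e D c (P * (a + 2)) (2 ^ l) (3 * (a ^ u (j + 1) * |y 0|)) (by positivity)
      d2 d4 (c2 j).le fun i _ k2 =>
        calc (a : ℤ) ^ (u (j + 1) - i) * 2 ^ bb e i * 2 ^ l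
            ≤ a ^ (u (j + 1) - i) * 2 ^ bb e i * |y i| := by
              gcongr
              exact lo i (k2.trans k0)
          _ ≤ a ^ (u (j + 1) - i) * (3 * a ^ i * |y 0|) := by
              rw [mul_assoc]
              exact mul_le_mul_of_nonneg_left (s1 i (k2.trans k0)) (by positivity)
          _ = _ := by
              rw [← pow_sub_mul_pow (a : ℤ) k2]
              ring
    rw [r2, ← mul_assoc] at k1
    have k2 : |s j| * 2 ^ bb e (w j) * 2 ^ l ≤ W * (a ^ u (j + 1) * (2 * |D 0|)) :=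
      k1.trans (mul_le_mul (W1 j hj) (by gcongr) (by positivity) (by positivity))
    have k3 : 6 * (W : ℤ) * 2 ^ (l / 2) ≤ 2 ^ l := by exact_mod_cast w3
    rw [abs_mul, abs_mul (D 0), abs_of_nonneg (by positivity : 0 ≤ (a : ℤ) ^ u n * 2 ^ 0),
      abs_of_nonneg (by positivity : 0 ≤ (a : ℤ) ^ (u n - u (j + 1)) * 2 ^ bb e (w j))]
    refine le_of_mul_le_mul_right ?_ (show (0 : ℤ) < 2 ^ l by positivity)
    calc 2 ^ (l / 2) * (|s j| * ((a : ℤ) ^ (u n - u (j + 1)) * 2 ^ bb e (w j))) * 2 ^ l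
        = 2 ^ (l / 2) * a ^ (u n - u (j + 1)) * (|s j| * 2 ^ bb e (w j) * 2 ^ l) := by ring
      _ ≤ 2 ^ (l / 2) * a ^ (u n - u (j + 1)) * (W * (a ^ u (j + 1) * (2 * |D 0|))) := by gcongr
      _ = |D 0| * (a ^ (u n - u (j + 1)) * a ^ u (j + 1) * 2 ^ 0) * (2 * W * 2 ^ (l / 2)) := by
          ring
      _ ≤ _ := by
          rw [pow_sub_mul_pow (a : ℤ) k0]
          gcongr
          exact le_trans (by gcongr; norm_num) k3
  refine ⟨Fin.cons (u n) fun j => if (j : ℕ) < n then u n - u (j + 1) else 0,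
    Fin.cons 0 fun j => if (j : ℕ) < n then bb e (w j) else 0,
    Fin.cons (K * (K * l) + 1) fun j => if (j : ℕ) < n then E j else 0, bb e (u n), l / 2,
    Fin.cons (D 0) fun j => if (j : ℕ) < n then s j else 0, (W : ℝ), fun j => ?_, b1, rfl,
    fun j => ?_, ?_, w1, by exact_mod_cast q1.trans (q2.trans W3), w4, fun j => ?_,
    ⟨D (u n), ?_⟩, fun k => ?_, fun j => ?_⟩
  · refine Fin.cases n1 (fun j => ?_) j
    rw [Fin.cons_succ]
    split_ifs with k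
    exacts [(Nat.sub_le _ _).trans n1, Nat.zero_le _]
  · refine Fin.cases (show 0 + (K * (K * l) + 1) ≤ N by omega) (fun j => ?_) j
    rw [Fin.cons_succ, Fin.cons_succ]
    split_ifs with k
    · have k1 := bb_mono e (m1 j k)
      have k2 := bb_mono e ((c2 j).le.trans (m1 j k))
      have k3 : E j ≤ ∑ i ∈ range n, E i :=
        single_le_sum (f := E) (fun _ _ => Nat.zero_le _) (mem_range.2 k)
      omega
    · exact Nat.zero_le _
  · rw [Fin.sum_univ_succ]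
    simp only [Fin.cons_zero, Fin.cons_succ]
    rw [winM_sum E hJ']
    omega
  · refine Fin.cases ?_ (fun j => ?_) j
    · rw [Fin.cons_zero, Fin.cons_zero]
      exact_mod_cast D2
    rw [Fin.cons_succ, Fin.cons_succ]
    split_ifs with k
    · exact_mod_cast W2 j k
    · simp
  · rw [Fin.sum_univ_succ, r1, ← winM_sum _ hJ']
    simp only [Fin.cons_zero, Fin.cons_succ, pow_zero, mul_one, hs]
    rw [mul_comm]
    congr 1
    refine sum_congr rfl fun j _ => ?_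
    split_ifs
    exacts [rfl, zero_mul _]
  · rw [Fin.cons_zero] at k
    rw [k, abs_zero] at D1
    omega
  · refine Fin.cases (fun k => absurd rfl k) (fun j _ => ?_) j
    simp only [Fin.cons_zero, Fin.cons_succ]
    split_ifs with k
    · exact W4 j k
    · rw [zero_mul, abs_zero, mul_zero]
      exact abs_nonneg _

end Pool.Agent.Lib.MP_dee342_nt.Ar
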