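import Pool.Agent.Lib.MP_dee342_nt.Ar.Lev
import Pool.Agent.Lib.MP_dee342_nt.Ar4.Lev0
import Pool.Agent.Lib.MP_dee342_nt.Ar4.Win

/-! Counting the levels along the ends of the blocks, and the length of a cycle. -/

namespace Pool.Agent.Lib.MP_dee342_nt.Ar

open Finset

theorem levB_sum {s n : ℕ → ℕ} {H k : ℕ}
    (hw : ∀ w < H, s w + n w ≤ k ∧ (w + 1 < H → s w + n w ≤ s (w + 1))) :
    ∑ w ∈ range H, n w ≤ k := by
  have h1 : ∀ v < H, ∑ w ∈ range (v + 1), n w ≤ s v + n v := by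
    intro v
    induction v with
    | zero =>
      intro _
      rw [sum_range_one]
      exact Nat.le_add_left _ _
    | succ v ih =>
      intro hv
      rw [sum_range_succ]
      exact Nat.add_le_add_right ((ih (by omega)).trans ((hw v (by omega)).2 hv)) _
  cases H with
  | zero => simp
  | succ v => exact (h1 v (by omega)).trans (hw v (by omega)).1

variable {a V K J A Q P : ℕ} (ha3 : 3 ≤ a)
  (hA : a * ((K + 1) * (K ^ 2 + 3)) + 4 * a + K ^ 2 + 2 ≤ A) (q1 : 1 ≤ Q) (q2 : Q ≤ P)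
  (q3 : P ≤ A) (hrep : Rp a V Q P) (y : ℕ → ℤ) (e : ℕ → ℕ) (he : ∀ i, 1 ≤ e i)
  (h : ∀ i, 2 ^ e i * y (i + 1) = a * y i + 1) {u : ℕ → ℕ} (hu : BCut a V K J y e u)
  {R r Z : ℕ} (hR : 10 ^ 7 * (A + 4) ^ 4 ≤ R) (hr : 60 * A ^ 3 * (r + 1) ≤ R)
  (hZ : R ^ 20 * 2 ^ R ^ 14 ≤ Z)
  (hq : ∀ N : Fin (R ^ 13) → ℕ, (∀ w, R ^ 20 * 2 ^ R ^ 14 ≤ N w) →
    (∀ w w', w < w' → 2 ^ R ^ 14 * N w ≤ N w') → (∀ w, BlkW a R (r + 1) (N w)) → False)

include ha3 hA q1 q2 q3 hrep he h hu hR hr hZ hq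

theorem levelsB (h0 : |y (u 0)| ≤ 2 ^ (K * Z)) (k : ℕ) :
    |y (u k)| ≤ 2 ^ (K * ((4 * A) ^ ((J + 1) * k / (r + 1) + R ^ 27) * Z)) := by
  by_contra hc
  have A1 : 1 ≤ A := by omega
  have hR1 : 1 ≤ R := le_trans (Nat.succ_le_of_lt (by positivity)) hR
  have h14 : 1 ≤ R ^ 14 := Nat.one_le_pow _ _ hR1
  have hZ20 : R ^ 20 ≤ Z := le_trans (Nat.le_mul_of_pos_right _ (by positivity)) hZ
  have hl : ∀ w, Z ≤ (4 * A) ^ w * Z := fun w => Nat.le_mul_of_pos_left _ (by positivity)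
  obtain ⟨s, n, hw⟩ := levB_windows A1 hu.pos (fun i => y (u i)) (fun i m hi => by
    refine ((hu i).2.1 _ le_rfl (blk_lt (hu i)).le).trans ?_
    rw [mul_comm, pow_mul]
    exact pow_le_pow_left₀ (abs_nonneg _) hi _) h0 (not_le.1 hc)
  have hcard := lev_card (fun w => (J + 1) * n w) ((mul_sum _ _ _).symm.trans_le
    (Nat.mul_le_mul_left _ (levB_sum fun w hw' => ⟨(hw w hw').1, (hw w hw').2.1⟩))) rfl
  obtain ⟨φ, hφ, hsep⟩ := exists_sepA _ (fun w => 20 * A ^ 3 * (r + 1) * ((4 * A) ^ w * Z))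
    (fun w _ w' _ hlt => by
      have h3 : (4 * A) ^ (w + 1) ≤ (4 * A) ^ w' := Nat.pow_le_pow_right (by omega) hlt
      have h4 : 2 * (4 * A) ^ w ≤ (4 * A) ^ w' := by
        refine le_trans ?_ h3
        rw [pow_succ']
        exact Nat.mul_le_mul_right _ (by omega)
      rw [mul_left_comm, ← mul_assoc 2]
      exact Nat.mul_le_mul_left _ (Nat.mul_le_mul_right _ h4))
    (R ^ 14) (R ^ 13) (by rw [← pow_add]; exact hcard) h14
  refine hq (fun w => 20 * A ^ 3 * (r + 1) * ((4 * A) ^ φ w * Z)) (fun w => ?_) hsep fun w => ?_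
  · exact (hZ.trans (hl _)).trans (Nat.le_mul_of_pos_left _ (by positivity))
  · obtain ⟨h3, h4⟩ := mem_filter.1 (hφ w)
    obtain ⟨-, -, h5, h6, h7, h8⟩ := hw _ (mem_range.1 h3)
    have h9 : ∀ i, u (s (φ w)) + (u (s (φ w) + i) - u (s (φ w))) = u (s (φ w) + i) := fun i =>
      Nat.add_sub_cancel' (hu.mono (Nat.le_add_right _ _))
    exact windowB ha3 hA q1 q2 q3 hrep (fun i => y (u (s (φ w)) + i))
      (fun i => e (u (s (φ w)) + i)) (fun i => he _) (fun i => h _)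
      (u := fun i => u (s (φ w) + i) - u (s (φ w))) (Nat.sub_self _) (hu.shift (s (φ w)))
      (n := n (φ w)) hR hr (hZ20.trans (hl _)) (by simpa only [h9] using h5)
      (by simpa only [h9] using h6) h7 (by simpa only [h9] using h8) h4

theorem cycB {M k i₀ : ℕ} (hu0 : u 0 = 0) (hk0 : 0 < k) (hk : ∀ i, u (i + M) = u i + k)
    (hy : ∀ i, y (i + k) = y i) (hek : ∀ i, e (i + k) = e i) (h0 : |y i₀| ≤ 2 ^ Z) :
    bb e k ≤ 4 * A ^ 2 * ((J + 1) * M + 1) * ((4 * A) ^ ((J + 1) * M / (r + 1) + R ^ 27) * Z) := by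
  have hM : u M = k := by simpa [hu0] using hk 0
  have h3 : y (i₀ % k) = y i₀ := Function.Periodic.map_mod_nat hy i₀
  obtain ⟨j, -, h4⟩ := hu.low hu0 M (i₀ % k) ((Nat.mod_lt _ hk0).le.trans hM.ge)
  have h5 : |y (u j)| ≤ 2 ^ (K * Z) := by
    refine h4.trans ?_
    rw [h3, mul_comm, pow_mul]
    exact pow_le_pow_left₀ (abs_nonneg _) h0 _
  have h6 := lengthB (L := K * ((4 * A) ^ ((J + 1) * M / (r + 1) + R ^ 27) * Z))
    (fun i => y (u j + i)) (fun i => e (u j + i)) (fun i => h _)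
    (u := fun i => u (j + i) - u j) (Nat.sub_self _) (hu.shift j) M fun i hi =>
      (levelsB ha3 hA q1 q2 q3 hrep (fun i => y (u j + i)) (fun i => e (u j + i))
        (fun i => he _) (fun i => h _) (hu.shift j) hR hr hZ hq (by simpa using h5) i).trans
        (pow_le_pow_right₀ one_le_two (Nat.mul_le_mul_left _ (Nat.mul_le_mul_right _
          (Nat.pow_le_pow_right (by omega) (Nat.add_le_add_right
            (Nat.div_le_div_right (Nat.mul_le_mul_left _ hi.le)) _)))))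
  have h7 : u (j + M) - u j = k := by rw [hk, Nat.add_sub_cancel_left]
  have h8 := bb_add e (u j) k
  have h9 := bb_add e k (u j)
  rw [show (fun i => e (k + i)) = e from funext fun i => by rw [add_comm, hek], add_comm k] at h9
  rw [h7] at h6
  have h10 : a * K ≤ A :=
    (Nat.mul_le_mul_left a (by nlinarith : K ≤ (K + 1) * (K ^ 2 + 3))).trans (by omega)
  generalize (4 * A) ^ ((J + 1) * M / (r + 1) + R ^ 27) * Z = L at h6 ⊢
  calc bb e k ≤ M * ((a * J + 1) * (K * L)) := by omega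
    _ ≤ M * ((a * J + a) * (K * L)) := by
        gcongr
        omega
    _ = 1 * (a * K * 1) * ((J + 1) * M) * L := by ring
    _ ≤ 4 * (A * A) * ((J + 1) * M + 1) * L := by
        gcongr <;> omega
    _ = _ := by ring

end Pool.Agent.Lib.MP_dee342_nt.Ar
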