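import Pool.Agent.Lib.MP_dee342_nt.Ar4.Lev
import Pool.Agent.Lib.MP_dee342_nt.Ar4.Ext
import Pool.Agent.Lib.MP_dee342_nt.Ar.RepV
import Pool.Agent.Lib.MP_dee342_nt.Ar.Sub
import Pool.Agent.Lib.MP_dee342_nt.Ar.Br
import Pool.Agent.Lib.MP_dee342_nt.Ar.Asym
import Pool.Agent.Lib.MP_dee342_nt.QAsym
import Pool.Agent.Lib.MP_dee342_nt.MinBound

/-! Cycles cut into blocks. -/

namespace Pool.Agent.Lib.MP_dee342_nt.Ar

open Finset Function Pool.Agent.Lib.MP_dee342_nt.Q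

theorem mainB {a : ℕ} (ha : Odd a) (ha3 : 3 ≤ a) (V K : ℕ) : ∃ C : ℝ,
    ∀ (J M : ℕ) (y : ℤ) (u : ℕ → ℕ), Odd y → 0 < M → u 0 = 0 → (syr a)^[u M] y = y →
      (∀ i < M, Block a V K J (fun j => (syr a)^[j] y) (fun j => syrE a ((syr a)^[j] y))
        (u i) (u (i + 1))) →
      Real.log (minimalPeriod (T a) y) ≤ C * ((J + 1) * M : ℝ) ^ (27 / 28 : ℝ) := by
  obtain ⟨C₀, -, hC₀⟩ := min_bound a ha ha3
  obtain ⟨Q, P, q1, q2, hrep⟩ := repV (a := a) (by omega) V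
  obtain ⟨A, hA'⟩ : ∃ A, A = a * ((K + 1) * (K ^ 2 + 3)) + 4 * a + K ^ 2 + 2 + P := ⟨_, rfl⟩
  have hA : a * ((K + 1) * (K ^ 2 + 3)) + 4 * a + K ^ 2 + 2 ≤ A := by omega
  have aA : a ≤ A := by omega
  obtain ⟨C₁, hC₁⟩ := asym A (ha3.trans aA) C₀
  refine ⟨|C₁| * 2, fun J M y u hy hM hu0 hk hu => ?_⟩
  have ho : ∀ i, Odd ((syr a)^[i] y) := fun i => (syr_iter ha ha3 hy i).1
  have hyk : ∀ i, (syr a)^[i + u M] y = (syr a)^[i] y := fun i => by rw [iterate_add_apply, hk]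
  obtain ⟨w, hw0, hw, hwk⟩ := bcut_ext (fun j => (syr a)^[j] y)
    (fun j => syrE a ((syr a)^[j] y)) u hM hu0 hyk (fun i => by simp only [hyk]) hu
  have he : ∀ i, 1 ≤ syrE a ((syr a)^[i] y) := fun i => (syr_step ha ha3 (ho i)).2.1
  have hk0 : 0 < u M := by
    have h1 := hwk 0
    have h2 := strictMono_nat_of_lt_succ (fun i => blk_lt (hw i)) hM
    rw [zero_add] at h1
    omega
  have hb : IsPeriodicPt (T a) (bb (fun j => syrE a ((syr a)^[j] y)) (u M)) y :=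
    (syr_iter ha ha3 hy (u M)).2.trans hk
  have hb0 := hk0.trans_le (le_bb he (u M))
  have h3 := hC₁ ((J + 1) * M) (minimalPeriod (T a) y) fun R r Z hR hr hZ hp => by
    obtain ⟨t, -, h4⟩ := hC₀ y _ (hb.minimalPeriod_pos hb0) (isPeriodicPt_minimalPeriod (T a) y)
    obtain ⟨i₀, h5⟩ := syr_le ha ha3 hy t
    have h6 : |(T a)^[t] y| ≤ 2 ^ Z := by exact_mod_cast h4.trans hp
    have h7 : 10 ^ 7 ≤ R := (Nat.le_mul_of_pos_right _ (by positivity)).trans hR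
    have h8 : 2 * (r + 1) ≤ 60 * A ^ 3 * (r + 1) :=
      Nat.mul_le_mul_right _ (by have := Nat.one_le_pow 3 A (by omega); omega)
    refine (hb.minimalPeriod_le hb0).trans (cycB ha3 hA q1 q2 (by omega) hrep _ _ he (fun i => ?_)
      hw hR hr hZ (fun N k1 k2 k3 => ?_) hw0 hk0 hwk hyk (fun i => by simp only [hyk])
      (h5.trans h6))
    · rw [iterate_succ_apply']
      exact (syr_step ha ha3 (ho i)).2.2.1
    · refine qsubW ha (le_trans (by gcongr) hR) (by omega) (Fintype.card_fin _) N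
        (fun i => (Nat.mul_le_mul_left _ (om_le h7)).trans (k1 i)) (fun i j hij => ?_) k3
      exact (lt_or_gt_of_ne hij).imp
        (fun c => (Nat.mul_le_mul_right _ (om_le h7)).trans (k2 _ _ c))
        fun c => (Nat.mul_le_mul_right _ (om_le h7)).trans (k2 _ _ c)
  have m1 : (1 : ℝ) ≤ (J + 1) * M := by
    exact_mod_cast Nat.mul_pos J.succ_pos hM
  have h4 : ((((J + 1) * M : ℕ) : ℝ) + 1) ^ (27 / 28 : ℝ) ≤
      2 * ((J + 1) * M : ℝ) ^ (27 / 28 : ℝ) := by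
    calc _ ≤ (2 * ((J + 1) * M : ℝ)) ^ (27 / 28 : ℝ) := by
          refine Real.rpow_le_rpow (by positivity) ?_ (by norm_num)
          push_cast
          linarith
      _ = (2 : ℝ) ^ (27 / 28 : ℝ) * ((J + 1) * M : ℝ) ^ (27 / 28 : ℝ) :=
          Real.mul_rpow (by positivity) (by positivity)
      _ ≤ _ := mul_le_mul_of_nonneg_right
          (Real.rpow_le_self_of_one_le one_le_two (by norm_num)) (by positivity)
  exact ((h3.trans (mul_le_mul_of_nonneg_right (le_abs_self C₁) (by positivity))).trans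
    (mul_le_mul_of_nonneg_left h4 (abs_nonneg C₁))).trans_eq (mul_assoc _ _ _).symm

end Pool.Agent.Lib.MP_dee342_nt.Ar
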