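import Pool.Agent.Lib.MP_dee342_nt.Ar4.Bas
import Pool.Agent.Lib.MP_dee342_nt.Ar2.Bas
import Pool.Agent.Lib.MP_dee342_nt.Ar.Len0

/-! A cutting into single steps and short descents gives a cutting into blocks. -/

namespace Pool.Agent.Lib.MP_dee342_nt.Ar

open Finset

theorem merge_runs_snoc {B : ℕ → ℕ → Prop} {x y z n : ℕ}
    (h : ∃ v : ℕ → ℕ, v 0 = x ∧ v n = y ∧ ∀ i < n, B (v i) (v (i + 1))) (hB : B y z) :
    ∃ v : ℕ → ℕ, v 0 = x ∧ v (n + 1) = z ∧ ∀ i < n + 1, B (v i) (v (i + 1)) := by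
  obtain ⟨v, h0, h1, h2⟩ := h
  refine ⟨fun i => if i ≤ n then v i else z, by simp [h0], by simp, fun i hi => ?_⟩
  rcases Nat.lt_or_ge i n with c | c
  · simp only [if_pos c.le, if_pos (Nat.succ_le_of_lt c)]
    exact h2 i c
  · obtain rfl : i = n := by omega
    simp only [if_pos le_rfl, if_neg (Nat.not_succ_le_self i), h1]
    exact hB

/-- Invariant of the induction on `M`: there are `M', u'` and `i₀ ≤ M` with `u' M' = u i₀`, `P l`
for `i₀ ≤ l < M` and `M' ≤ 2 * count`; at the end add the block from `i₀` to `M` if `i₀ < M`. -/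
theorem merge_runs (u : ℕ → ℕ) (P : ℕ → Prop) [DecidablePred P] (B : ℕ → ℕ → Prop) (M : ℕ)
    (h1 : ∀ i < M, ¬ P i → B (u i) (u (i + 1)))
    (h2 : ∀ i j, i < j → j ≤ M → (∀ l, i ≤ l → l < j → P l) → B (u i) (u j)) :
    ∃ (M' : ℕ) (u' : ℕ → ℕ), u' 0 = u 0 ∧ u' M' = u M ∧ (∀ i < M', B (u' i) (u' (i + 1))) ∧
      M' ≤ 2 * #{i ∈ range M | ¬ P i} + 1 := by
  have close : ∀ m ≤ M, ∀ i₀ ≤ m, ∀ n : ℕ, (∀ l, i₀ ≤ l → l < m → P l) →
      (∃ v : ℕ → ℕ, v 0 = u 0 ∧ v n = u i₀ ∧ ∀ i < n, B (v i) (v (i + 1))) →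
      ∃ n' ≤ n + 1, ∃ v : ℕ → ℕ, v 0 = u 0 ∧ v n' = u m ∧ ∀ i < n', B (v i) (v (i + 1)) := by
    intro m hm i₀ hi n hP hv
    rcases hi.eq_or_lt with rfl | c
    · exact ⟨n, n.le_succ, hv⟩
    · exact ⟨n + 1, le_rfl, merge_runs_snoc hv (h2 i₀ m c hm hP)⟩
  have key : ∀ m ≤ M, ∃ i₀ ≤ m, ∃ n ≤ 2 * #{i ∈ range m | ¬ P i}, (∀ l, i₀ ≤ l → l < m → P l) ∧
      ∃ v : ℕ → ℕ, v 0 = u 0 ∧ v n = u i₀ ∧ ∀ i < n, B (v i) (v (i + 1)) := by
    intro m
    induction m with
    | zero =>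
      exact fun _ => ⟨0, le_rfl, 0, Nat.zero_le _, fun l _ c => absurd c (Nat.not_lt_zero l),
        u, rfl, rfl, fun l c => absurd c (Nat.not_lt_zero l)⟩
    | succ m ih =>
      intro hm
      obtain ⟨i₀, a1, n, a2, a3, a4⟩ := ih (by omega)
      have hc : #{i ∈ range (m + 1) | ¬ P i} =
          #{i ∈ range m | ¬ P i} + if ¬ P m then 1 else 0 := by
        simp only [card_filter, sum_range_succ]
      by_cases c : P m
      · refine ⟨i₀, by omega, n, by omega, fun l k1 k2 => ?_, a4⟩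
        rcases Nat.lt_or_ge l m with k | k
        · exact a3 l k1 k
        · rwa [show l = m by omega]
      · obtain ⟨n', b1, b2⟩ := close m (by omega) i₀ a1 n a3 a4
        rw [if_pos c] at hc
        exact ⟨m + 1, le_rfl, n' + 1, by omega, fun l k1 k2 => by omega,
          merge_runs_snoc b2 (h1 m (by omega) c)⟩
  obtain ⟨i₀, a1, n, a2, a3, a4⟩ := key M le_rfl
  obtain ⟨n', b1, v, b2, b3, b4⟩ := close M le_rfl i₀ a1 n a3 a4
  exact ⟨n', v, b2, b3, b4, by omega⟩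

/-- Take `w = t - 1`. For `s ≤ i < t` let `L` be least with `|y i| ≤ 2 ^ L`, so `L ≥ 1` and
`2 ^ L ≤ |y i| ^ 2`; `len_rise` (shifted by `i`) and `le_bb` give `t - 1 - i ≤ L + a + 1`, hence
`2 ^ (t - i) ≤ |y i| ^ (a + 4)`, and `|y t| ≤ 2 ^ (a (t - i)) |y i|`. -/
theorem run_block {a J : ℕ} (ha : Odd a) (y : ℕ → ℤ) (e : ℕ → ℕ) (he : ∀ i, 1 ≤ e i)
    (h : ∀ i, 2 ^ e i * y (i + 1) = a * y i + 1) (h2 : ∀ i, 2 ≤ |y i|) (hJ : a + 4 ≤ J) {s t : ℕ}
    (hst : s < t) (hr : ∀ j, s ≤ j → j + 1 < t → 2 ^ e j < a ∧ e (j + 1) = e j) :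
    Block a 1 (a * (a + 4) + 1) J y e s t := by
  have k1 : ∀ i, s ≤ i → i < t → (2 : ℤ) ^ (t - i) ≤ |y i| ^ (a + 4) := fun i hi ht => by
    have a0 := h2 i
    obtain ⟨n, n1, n2⟩ := exists_nat_pow_near (x := |y i|) (y := (2 : ℤ)) (by omega) one_lt_two
    have a1 : t - 1 - i ≤ n + 1 + a + 1 := by
      rcases Nat.eq_zero_or_pos (t - 1 - i) with c | c
      · omega
      have a2 : ∀ j, i + j < t → e (i + j) = e i := fun j => by
        induction j with
        | zero => exact fun _ => rfl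
        | succ j ih =>
          intro hj
          rw [← add_assoc, (hr (i + j) (by omega) (by omega)).2, ih (by omega)]
      exact (le_bb (e := fun j => e (i + j)) (fun j => he _) _).trans
        (len_rise ha (fun j => y (i + j)) (fun j => e (i + j)) (fun j => h (i + j))
          (hr i hi (by omega)).1 (fun j hj => a2 j (by omega)) a0 n2.le)
    calc (2 : ℤ) ^ (t - i) ≤ 2 ^ (n + (a + 3)) := pow_le_pow_right₀ one_le_two (by omega)
      _ = 2 ^ n * 2 ^ (a + 3) := pow_add _ _ _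
      _ ≤ |y i| * |y i| ^ (a + 3) :=
        mul_le_mul n1 (pow_le_pow_left₀ zero_le_two a0 _) (by positivity) (abs_nonneg _)
      _ = |y i| ^ (a + 4) := by ring
  have k2 : ∀ j, |y (j + 1)| ≤ 2 ^ a * |y j| := fun j => by
    have a0 := h2 j
    have a1 : (a : ℤ) + 1 ≤ 2 ^ a := by exact_mod_cast Nat.lt_two_pow_self (n := a)
    have a2 : |(a : ℤ) * y j + 1| ≤ a * |y j| + 1 := by
      simpa [abs_mul] using abs_add_le ((a : ℤ) * y j) 1
    have a3 : |y (j + 1)| ≤ |2 ^ e j * y (j + 1)| := by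
      rw [abs_mul, abs_pow, abs_two]
      exact le_mul_of_one_le_left (abs_nonneg _) (one_le_pow₀ one_le_two)
    rw [h j] at a3
    nlinarith
  have k3 : ∀ i n, |y (i + n)| ≤ (2 ^ n) ^ a * |y i| := fun i n => by
    induction n with
    | zero => simp
    | succ n ih =>
      refine (k2 (i + n)).trans ((mul_le_mul_of_nonneg_left ih (by positivity)).trans_eq ?_)
      rw [pow_succ, mul_pow]
      ring
  refine ⟨(k1 s le_rfl hst).trans (pow_le_pow_right₀ (by linarith [h2 s]) hJ), fun i hi ht => ?_,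
    t - 1, by omega, by omega, fun j hj hw => by simpa using hr j hj (by omega), fun i hw ht => ?_⟩
  · rcases ht.eq_or_lt with rfl | ht
    · exact le_self_pow₀ (by linarith [h2 i]) (by omega)
    · have a1 := k3 i (t - i)
      rw [Nat.add_sub_cancel' ht.le] at a1
      refine a1.trans ((mul_le_mul_of_nonneg_right
        (pow_le_pow_left₀ (by positivity) (k1 i hi ht) a) (abs_nonneg _)).trans_eq ?_)
      rw [← pow_mul, ← pow_succ, mul_comm]
  · rw [show i = t by omega]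
    exact le_mul_of_one_le_left (by positivity) (one_le_pow₀ one_le_two)

/-- `merge_runs` with `B = Block a 1 (a (a + 4) + 1) (K + a + 4) y e`; a single step and a run are
blocks by `run_block` (on a run `u (i + j) = u i + j`), a descent is a block with `w = s`. -/
theorem old_cut {a K M : ℕ} (ha : Odd a) (y : ℕ → ℤ) (e : ℕ → ℕ) (he : ∀ i, 1 ≤ e i)
    (h : ∀ i, 2 ^ e i * y (i + 1) = a * y i + 1) (h2 : ∀ i, 2 ≤ |y i|) (u : ℕ → ℕ)
    (hu : ∀ i < M, u (i + 1) = u i + 1 ∨ Desc K y (u i) (u (i + 1))) :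
    ∃ (M' : ℕ) (u' : ℕ → ℕ), u' 0 = u 0 ∧ u' M' = u M ∧
      (∀ i < M', Block a 1 (a * (a + 4) + 1) (K + a + 4) y e (u' i) (u' (i + 1))) ∧
      M' ≤ 2 * pieces a e u M + 1 := by
  refine merge_runs u (fun i => u (i + 1) = u i + 1 ∧ 2 ^ e (u i) < a ∧ e (u i + 1) = e (u i)) _ M
    (fun i hi _ => ?_) fun i j hij hj hP => ?_
  · rcases hu i hi with h1 | ⟨h1, h3, h4⟩
    · exact run_block ha y e he h h2 (by omega) (by omega) fun j h3 h4 => by omega
    · have h5 : ∀ i, (1 : ℤ) ≤ |y i| := fun i => one_le_two.trans (h2 i)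
      refine ⟨h3.trans (pow_le_pow_right₀ (h5 _) (by omega)), fun l l1 l2 =>
        (h4 l l1 l2).trans (le_self_pow₀ (h5 _) (by omega)), u i, le_rfl, h1,
        fun j j1 j2 => by omega, fun l l1 l2 => ?_⟩
      rw [Nat.sub_self, mul_zero, pow_zero, one_mul]
      exact pow_le_pow_left₀ (abs_nonneg _) (h4 l l1.le l2) _
  · have h1 : ∀ l, i + l ≤ j → u (i + l) = u i + l := fun l hl => by
      induction l with
      | zero => rfl
      | succ l ih =>
        rw [← add_assoc, (hP (i + l) (by omega) (by omega)).1, ih (by omega), add_assoc]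
    have h3 := h1 (j - i) (by omega)
    rw [Nat.add_sub_cancel' hij.le] at h3
    refine run_block ha y e he h h2 (by omega) (by omega) fun l l1 l2 => ?_
    obtain ⟨l, rfl⟩ := Nat.exists_eq_add_of_le l1
    rw [← h1 l (by omega)]
    exact (hP (i + l) (by omega) (by omega)).2

end Pool.Agent.Lib.MP_dee342_nt.Ar
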