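import Pool.Agent.Lib.MP_dee342_nt.Ar4.Old
import Pool.Agent.Lib.MP_dee342_nt.Ar.Br

/-! The bound for blocks gives the bound for single steps and short descents. -/

namespace Pool.Agent.Lib.MP_dee342_nt.Ar

open Finset Function

theorem odd35 {a : ℕ} (ha : a = 3 ∨ a = 5) : Odd a := by
  rcases ha with rfl | rfl <;> decide

theorem old_of_blocks {a : ℕ} (ha : Odd a) (ha3 : 3 ≤ a)
    (H : ∃ C : ℝ, ∀ (J M : ℕ) (y : ℤ) (u : ℕ → ℕ), Odd y → 0 < M → u 0 = 0 →
      (syr a)^[u M] y = y → (∀ i < M, Block a 1 (a * (a + 4) + 1) J (fun j => (syr a)^[j] y)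
        (fun j => syrE a ((syr a)^[j] y)) (u i) (u (i + 1))) →
      Real.log (minimalPeriod (T a) y) ≤ C * ((J + 1) * M : ℝ) ^ (27 / 28 : ℝ)) :
    ∃ C : ℝ, ∀ (K M : ℕ) (y : ℤ) (u : ℕ → ℕ), Odd y → 0 < M → u 0 = 0 → (syr a)^[u M] y = y →
      (∀ i < M, u (i + 1) = u i + 1 ∨ Desc K (fun j => (syr a)^[j] y) (u i) (u (i + 1))) →
      Real.log (minimalPeriod (T a) y) ≤
        C * ((K + 1) * (pieces a (fun j => syrE a ((syr a)^[j] y)) u M : ℝ) + 1) ^
          (27 / 28 : ℝ) := by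
  obtain ⟨C, hC⟩ := H
  refine ⟨|C| * (3 * (a + 5)) + Real.log (minimalPeriod (T a) 1) +
    Real.log (minimalPeriod (T a) (-1)), fun K M y u hy hM hu0 hk hu => ?_⟩
  have l1 := Real.log_natCast_nonneg (minimalPeriod (T a) 1)
  have l2 := Real.log_natCast_nonneg (minimalPeriod (T a) (-1))
  have ho : ∀ i, Odd ((syr a)^[i] y) := fun i => (syr_iter ha ha3 hy i).1
  have he : ∀ i, 1 ≤ syrE a ((syr a)^[i] y) := fun i => (syr_step ha ha3 (ho i)).2.1
  have hle : ∀ i ≤ M, i ≤ u i := fun i => by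
    induction i with
    | zero => exact fun _ => Nat.zero_le _
    | succ i ih =>
      intro hi
      have h1 := ih (by omega)
      have h2 : u i < u (i + 1) := (hu i hi).elim (fun c => by omega) fun c => c.1
      omega
  have hk0 : 0 < u M := hM.trans_le (hle M le_rfl)
  obtain ⟨m, hm⟩ : ∃ m, m = pieces a (fun j => syrE a ((syr a)^[j] y)) u M := ⟨_, rfl⟩
  rw [← hm]
  have m0 : (0 : ℝ) ≤ (K + 1) * m := by positivity
  have m1 : (1 : ℝ) ≤ ((K + 1) * (m : ℝ) + 1) ^ (27 / 28 : ℝ) :=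
    Real.one_le_rpow (by linarith) (by norm_num)
  have m2 : 0 ≤ |C| * (3 * ((a : ℝ) + 5)) := by positivity
  by_cases h2 : ∀ i, 2 ≤ |(syr a)^[i] y|
  · obtain ⟨K', k1, k2⟩ : ∃ K' : ℕ, (∀ i < M, u (i + 1) = u i + 1 ∨
        Desc K' (fun j => (syr a)^[j] y) (u i) (u (i + 1))) ∧
        (K' + a + 4 + 1) * (2 * m + 1) ≤ 3 * (a + 5) * ((K + 1) * m + 1) := by
      rcases m.eq_zero_or_pos with c | c
      · refine ⟨0, fun i hi => Or.inl ?_, by rw [c]; omega⟩
        have h3 := filter_eq_empty_iff.1 (card_eq_zero.1 (hm.symm.trans c)) (mem_range.2 hi)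
        exact (not_not.1 h3).1
      · refine ⟨K, hu, ?_⟩
        calc (K + a + 4 + 1) * (2 * m + 1) ≤ (a + 5) * (K + 1) * (3 * m) :=
              Nat.mul_le_mul (by nlinarith) (by omega)
          _ ≤ _ := by nlinarith
    obtain ⟨M', u', c1, c2, c3, c4⟩ := old_cut ha _ _ he (fun i => by
      rw [iterate_succ_apply']
      exact (syr_step ha ha3 (ho i)).2.2.1) h2 u k1
    have c5 : 0 < M' := Nat.pos_of_ne_zero fun c => by
      rw [c] at c2
      omega
    have h3 := hC _ M' y u' hy c5 (c1.trans hu0) (c2 ▸ hk) c3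
    have h4 : (((K' + a + 4 : ℕ) + 1) * M' : ℝ) ≤ 3 * (a + 5) * ((K + 1) * m + 1) := by
      exact_mod_cast (Nat.mul_le_mul_left _ (hm ▸ c4)).trans k2
    have h5 : (((K' + a + 4 : ℕ) + 1) * M' : ℝ) ^ (27 / 28 : ℝ) ≤
        3 * (a + 5) * ((K + 1) * (m : ℝ) + 1) ^ (27 / 28 : ℝ) :=
      (Real.rpow_le_rpow (by positivity) h4 (by norm_num)).trans
        ((Real.mul_rpow (by positivity) (by positivity)).trans_le (mul_le_mul_of_nonneg_right
          (Real.rpow_le_self_of_one_le (by linarith [a.cast_nonneg (α := ℝ)]) (by norm_num))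
          (by positivity)))
    have h6 := (h3.trans (mul_le_mul_of_nonneg_right (le_abs_self C) (by positivity))).trans
      (mul_le_mul_of_nonneg_left h5 (abs_nonneg C))
    nlinarith
  · obtain ⟨i, hi⟩ := not_forall.1 h2
    have hper : y ∈ periodicPts (T a) :=
      ⟨_, hk0.trans_le (le_bb he (u M)), (syr_iter ha ha3 hy (u M)).2.trans hk⟩
    have h3 := minimalPeriod_apply_iterate hper (bb (fun j => syrE a ((syr a)^[j] y)) i)
    rw [(syr_iter ha ha3 hy i).2] at h3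
    have h4 := Int.odd_iff.1 (ho i)
    have h5 := abs_lt.1 (not_le.1 hi)
    have h6 : (syr a)^[i] y = 1 ∨ (syr a)^[i] y = -1 := by omega
    rw [← h3]
    rcases h6 with h6 | h6 <;> rw [h6] <;> nlinarith

end Pool.Agent.Lib.MP_dee342_nt.Ar
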